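import Pool.Agent.Lib.MP_3519bc_nt.Ins.Lim

/-!
# The mean of the cosine series over the points `a (2 M t)`, `M ^ 2 ≤ t < 2 M ^ 2`, `a = 1` or `a = -1`
-/

set_option autoImplicit false

namespace PsiOm

open Finset

/-- The diagonal weight. -/
noncomputable def dg (n : ℕ) : ℝ :=
  2 / Real.sqrt (n : ℝ) * Real.cos (Real.pi * ((3 * (n : ℝ) - 1) / 4))

lemma psiT_arg (a : ℝ) (M t n : ℕ) :
    psiT (a * (2 * M * t)) n = 2 / Real.sqrt (n : ℝ) *
      Real.cos (Real.pi * ((3 * (n : ℝ) - 1) / 4) - 2 * (a * (Real.pi * M / n)) * t) := by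
  unfold psiT
  congr 2
  ring

lemma sin_sign {a : ℝ} (ha : a = 1 ∨ a = -1) (y : ℝ) : |Real.sin (a * y)| = |Real.sin y| := by
  rcases ha with rfl | rfl
  · rw [one_mul]
  · rw [neg_one_mul, Real.sin_neg, abs_neg]

lemma sum_dvd {a : ℝ} (ha : a = 1 ∨ a = -1) (M n A B : ℕ) (hn : 1 ≤ n) (hd : n ∣ M) :
    ∑ t ∈ Ico A B, psiT (a * (2 * M * (t : ℕ))) n = (B - A : ℕ) * dg n := by
  obtain ⟨c, rfl⟩ := hd
  have hn0 : (0 : ℝ) < n := by exact_mod_cast hn
  have h : ∀ t ∈ Ico A B, psiT (a * (2 * (n * c : ℕ) * (t : ℕ))) n = dg n := by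
    intro t _
    rw [psiT_arg]
    unfold dg
    congr 1
    have : Real.pi * ((3 * (n : ℝ) - 1) / 4) - 2 * (a * (Real.pi * ((n * c : ℕ) : ℝ) / n)) * t =
        Real.pi * ((3 * (n : ℝ) - 1) / 4) - a * ((c * t : ℕ) * (2 * Real.pi)) := by
      push_cast
      field_simp
    rw [this]
    rcases ha with rfl | rfl
    · rw [one_mul, Real.cos_sub_nat_mul_two_pi]
    · rw [neg_one_mul, sub_neg_eq_add, Real.cos_add_nat_mul_two_pi]
  rw [Finset.sum_congr rfl h, Finset.sum_const, Nat.card_Ico, nsmul_eq_mul]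

lemma sum_bound {a : ℝ} (ha : a = 1 ∨ a = -1) (M n A B : ℕ) (hn : 1 ≤ n) (hAB : A ≤ B) (δ : ℝ)
    (hδ : 0 < δ) (hs : 2 * δ / (n : ℝ) ≤ |Real.sin (Real.pi * (M : ℝ) / n)|) :
    |∑ t ∈ Ico A B, psiT (a * (2 * M * (t : ℕ))) n| ≤ Real.sqrt n / δ := by
  have hn0 : (0 : ℝ) < n := by exact_mod_cast hn
  have h : ∑ t ∈ Ico A B, psiT (a * (2 * M * (t : ℕ))) n = 2 / Real.sqrt (n : ℝ) *
      ∑ t ∈ Ico A B, Real.cos (Real.pi * ((3 * (n : ℝ) - 1) / 4) -
        2 * (a * (Real.pi * M / n)) * t) := by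
    rw [Finset.mul_sum]
    exact Finset.sum_congr rfl fun t _ => psiT_arg _ _ _ _
  rw [h, abs_mul, abs_of_nonneg (by positivity : 0 ≤ 2 / Real.sqrt (n : ℝ))]
  have h1 := cos_sum (Real.pi * ((3 * (n : ℝ) - 1) / 4)) (a * (Real.pi * M / n)) A B hAB
  rw [sin_sign ha] at h1
  set X := |∑ t ∈ Ico A B, Real.cos (Real.pi * ((3 * (n : ℝ) - 1) / 4) -
    2 * (a * (Real.pi * M / n)) * t)|
  have hX : 0 ≤ X := abs_nonneg _
  have h3 : 2 * δ / (n : ℝ) * X ≤ 1 := (mul_le_mul_of_nonneg_right hs hX).trans h1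
  have h4 : 2 / Real.sqrt (n : ℝ) * X = Real.sqrt n / δ * (2 * δ / (n : ℝ) * X) := by
    have hs : Real.sqrt n * Real.sqrt n = n := Real.mul_self_sqrt hn0.le
    have hs0 : 0 < Real.sqrt (n : ℝ) := Real.sqrt_pos.mpr hn0
    field_simp
    rw [pow_two, hs]
    ring
  rw [h4]
  exact mul_le_of_le_one_right (by positivity) h3

lemma sum_not_dvd {a : ℝ} (ha : a = 1 ∨ a = -1) (M n A B : ℕ) (hn : 1 ≤ n) (hAB : A ≤ B)
    (hd : ¬ n ∣ M) : |∑ t ∈ Ico A B, psiT (a * (2 * M * (t : ℕ))) n| ≤ Real.sqrt n := by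
  have h := sum_bound ha M n A B hn hAB 1 one_pos (by rw [mul_one]; exact sin_lower M n hn hd)
  rwa [div_one] at h

lemma sum_large {a : ℝ} (ha : a = 1 ∨ a = -1) (M n A B : ℕ) (hM : 1 ≤ M) (hn : 1 ≤ n)
    (hAB : A ≤ B) (hd : 2 * M ≤ n) :
    |∑ t ∈ Ico A B, psiT (a * (2 * M * (t : ℕ))) n| ≤ Real.sqrt n / M :=
  sum_bound ha M n A B hn hAB M (by exact_mod_cast hM) (sin_lower' M n hn hd)

/-- The sum over the interval is the diagonal part up to `2 M ^ 2`. -/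
lemma avg_abs {a : ℝ} (ha : a = 1 ∨ a = -1) (M : ℕ) (hM : 8 ≤ M) :
    |∑ t ∈ Ico (M ^ 2) (2 * M ^ 2), ∑ n ∈ Ico 1 (M ^ 2), psiT (a * (2 * M * (t : ℕ))) n -
      (M : ℝ) ^ 2 * ∑ n ∈ M.divisors, dg n| ≤ 2 * (M : ℝ) ^ 2 := by
  have hMr : (8 : ℝ) ≤ M := by exact_mod_cast hM
  rw [Finset.sum_comm]
  have hterm : ∀ n ∈ Ico 1 (M ^ 2),
      |∑ t ∈ Ico (M ^ 2) (2 * M ^ 2), psiT (a * (2 * M * (t : ℕ))) n -
        (if n ∣ M then (M : ℝ) ^ 2 * dg n else 0)| ≤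
        (if n < 2 * M then Real.sqrt (2 * M) else 0) + 1 := by
    intro n hn
    rw [Finset.mem_Ico] at hn
    have hs : (0 : ℝ) ≤ (if n < 2 * M then Real.sqrt (2 * M) else 0) := by
      split_ifs
      · exact Real.sqrt_nonneg _
      · exact le_refl _
    by_cases hd : n ∣ M
    · rw [if_pos hd, sum_dvd ha M n _ _ hn.1 hd]
      have : (2 * M ^ 2 - M ^ 2 : ℕ) = M ^ 2 := by omega
      rw [this]
      push_cast
      rw [sub_self, abs_zero]
      linarith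
    · rw [if_neg hd, sub_zero]
      by_cases hl : n < 2 * M
      · have h1 := sum_not_dvd ha M n (M ^ 2) (2 * M ^ 2) hn.1 (by nlinarith) hd
        have h2 : Real.sqrt (n : ℝ) ≤ Real.sqrt (2 * M) := by
          apply Real.sqrt_le_sqrt
          have : n ≤ 2 * M := hl.le
          exact_mod_cast this
        rw [if_pos hl]
        linarith
      · rw [if_neg hl]
        have h1 := sum_large ha M n (M ^ 2) (2 * M ^ 2) (by omega) hn.1 (by nlinarith) (by omega)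
        have h2 : Real.sqrt (n : ℝ) / M ≤ 1 := by
          rw [div_le_one (by linarith)]
          apply Real.sqrt_le_iff.mpr
          refine ⟨by linarith, ?_⟩
          have := hn.2.le
          exact_mod_cast this
        linarith
  have e1 : ∑ n ∈ Ico 1 (M ^ 2), (if n ∣ M then (M : ℝ) ^ 2 * dg n else 0) =
      (M : ℝ) ^ 2 * ∑ n ∈ M.divisors, dg n := by
    rw [← Finset.sum_filter, Finset.mul_sum]
    refine Finset.sum_congr ?_ fun _ _ => rfl
    ext n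
    simp only [Finset.mem_filter, Finset.mem_Ico, Nat.mem_divisors]
    constructor
    · rintro ⟨_, h⟩
      exact ⟨h, by omega⟩
    · rintro ⟨h, _⟩
      have h1 : n ≤ M := Nat.le_of_dvd (by omega) h
      have h2 : 0 < n := Nat.pos_of_dvd_of_pos h (by omega)
      exact ⟨⟨h2, by nlinarith⟩, h⟩
  have e2 : ∑ n ∈ Ico 1 (M ^ 2), (if n < 2 * M then Real.sqrt (2 * M) else 0) ≤ (M : ℝ) ^ 2 := by
    rw [← Finset.sum_filter, Finset.sum_const, nsmul_eq_mul]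
    have hc : (#{n ∈ Ico 1 (M ^ 2) | n < 2 * M}) ≤ 2 * M := by
      calc #{n ∈ Ico 1 (M ^ 2) | n < 2 * M} ≤ #(Finset.range (2 * M)) := by
            apply Finset.card_le_card
            intro n hn
            simp only [Finset.mem_filter] at hn
            exact Finset.mem_range.mpr hn.2
        _ = 2 * M := Finset.card_range _
    have hc' : ((#{n ∈ Ico 1 (M ^ 2) | n < 2 * M} : ℕ) : ℝ) ≤ 2 * M := by exact_mod_cast hc
    have hsq : Real.sqrt (2 * M) ≤ M / 2 := by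
      apply Real.sqrt_le_iff.mpr
      refine ⟨by linarith, ?_⟩
      nlinarith
    calc ((#{n ∈ Ico 1 (M ^ 2) | n < 2 * M} : ℕ) : ℝ) * Real.sqrt (2 * M)
        ≤ (2 * M) * (M / 2) := by
          refine mul_le_mul hc' hsq (Real.sqrt_nonneg _) (by linarith)
      _ = (M : ℝ) ^ 2 := by ring
  have e3 : ∑ n ∈ Ico 1 (M ^ 2), (1 : ℝ) ≤ (M : ℝ) ^ 2 := by
    rw [Finset.sum_const, Nat.card_Ico, nsmul_eq_mul, mul_one]
    have : M ^ 2 - 1 ≤ M ^ 2 := Nat.sub_le _ _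
    exact_mod_cast this
  rw [← e1, ← Finset.sum_sub_distrib]
  refine (Finset.abs_sum_le_sum_abs _ _).trans ((Finset.sum_le_sum hterm).trans ?_)
  rw [Finset.sum_add_distrib]
  linarith

/-- There is a point where the series is as large as the diagonal part, with either sign. -/
lemma exists_large {a b : ℝ} (ha : a = 1 ∨ a = -1) (hb : b = 1 ∨ b = -1) (M : ℕ) (hM : 8 ≤ M) :
    ∃ t : ℕ, M ^ 2 ≤ t ∧ t < 2 * M ^ 2 ∧ ∃ S : ℝ,
      Filter.Tendsto (fun N : ℕ => ∑ n ∈ Icc 1 N, psiT (a * (2 * M * t)) n) Filter.atTop (nhds S) ∧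
      b * ∑ n ∈ M.divisors, dg n - 32 ≤ b * S := by
  by_contra hcon
  push Not at hcon
  have hMr : (8 : ℝ) ≤ M := by exact_mod_cast hM
  have haa : |a| = 1 := by
    rcases ha with rfl | rfl
    · exact abs_one
    · rw [abs_neg, abs_one]
  have hbb : |b| = 1 := by
    rcases hb with rfl | rfl
    · exact abs_one
    · rw [abs_neg, abs_one]
  have h1 : ∀ t ∈ Ico (M ^ 2) (2 * M ^ 2),
      b * ∑ n ∈ Ico 1 (M ^ 2), psiT (a * (2 * M * (t : ℕ))) n <
        b * ∑ n ∈ M.divisors, dg n - 2 := by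
    intro t ht
    rw [Finset.mem_Ico] at ht
    obtain ⟨S, hS, hS'⟩ := exists_limit (a * (2 * M * t))
    have h2 := hcon t ht.1 ht.2 S hS
    have h3 := hS' (M ^ 2) (by nlinarith)
    have h4 : |b * S - b * ∑ n ∈ Ico 1 (M ^ 2), psiT (a * (2 * M * t)) n| ≤
        4 / Real.sqrt ((M ^ 2 : ℕ) : ℝ) +
          2 * Real.pi * |a * (2 * M * t)| / (((M ^ 2 : ℕ) : ℝ) * Real.sqrt ((M ^ 2 : ℕ) : ℝ)) := by
      rw [← mul_sub, abs_mul, hbb, one_mul]
      exact h3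
    have h4' := (abs_le.mp h4).1
    have hsq : Real.sqrt ((M ^ 2 : ℕ) : ℝ) = M := by
      push_cast
      exact Real.sqrt_sq (by linarith)
    have htr : (t : ℝ) ≤ 2 * (M : ℝ) ^ 2 := by exact_mod_cast ht.2.le
    rw [hsq] at h4'
    have h5 : 4 / (M : ℝ) ≤ 1 := by
      rw [div_le_one (by linarith)]; linarith
    have h6 : 2 * Real.pi * |a * (2 * (M : ℝ) * t)| / (((M ^ 2 : ℕ) : ℝ) * M) ≤ 8 * Real.pi := by
      rw [abs_mul, haa, one_mul, abs_of_nonneg (by positivity), div_le_iff₀ (by positivity)]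
      push_cast
      have hpi := Real.pi_pos
      have : 2 * Real.pi * (2 * (M : ℝ) * t) = (4 * Real.pi * M) * t := by ring
      rw [this]
      have h7 : (4 * Real.pi * M) * t ≤ (4 * Real.pi * M) * (2 * (M : ℝ) ^ 2) :=
        mul_le_mul_of_nonneg_left htr (by positivity)
      linarith
    have h8 : Real.pi < 3.15 := Real.pi_lt_d2
    linarith
  have h9 := avg_abs ha M hM
  have h10 : ∑ t ∈ Ico (M ^ 2) (2 * M ^ 2), b * ∑ n ∈ Ico 1 (M ^ 2), psiT (a * (2 * M * (t : ℕ))) n <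
      ∑ t ∈ Ico (M ^ 2) (2 * M ^ 2), (b * ∑ n ∈ M.divisors, dg n - 2) := by
    apply Finset.sum_lt_sum_of_nonempty
    · rw [Finset.nonempty_Ico]; nlinarith
    · exact h1
  rw [Finset.sum_const, Nat.card_Ico, nsmul_eq_mul, ← Finset.mul_sum] at h10
  have h11 : (2 * M ^ 2 - M ^ 2 : ℕ) = M ^ 2 := by omega
  rw [h11] at h10
  push_cast at h10
  have h12 : |b * ∑ t ∈ Ico (M ^ 2) (2 * M ^ 2), ∑ n ∈ Ico 1 (M ^ 2), psiT (a * (2 * M * (t : ℕ))) n -
      b * ((M : ℝ) ^ 2 * ∑ n ∈ M.divisors, dg n)| ≤ 2 * (M : ℝ) ^ 2 := by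
    rw [← mul_sub, abs_mul, hbb, one_mul]
    exact h9
  have h13 := (abs_le.mp h12).1
  linarith

end PsiOm
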