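import Pool.Agent.Lib.MP_3519bc_nt.Ins.Div
import Pool.Agent.Lib.MP_629a14_nt.Rob.PiAP

/-!
# The primes of a class mod 8 between `Y` and `2 Y`
-/

set_option autoImplicit false

namespace PsiOm

open Finset

/-- The primes `Y < p ≤ 2 Y` of the class `r` mod 8. -/
def blk (r Y : ℕ) : Finset ℕ := (Ioc Y (2 * Y)).filter fun p => p.Prime ∧ p % 8 = r

lemma blk_log (r Y : ℕ) (hY : 1 ≤ Y) :
    Real.log ((∏ p ∈ blk r Y, p : ℕ) : ℝ) = ∑ p ∈ blk r Y, Real.log p := by
  rw [Nat.cast_prod, Real.log_prod]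
  intro p hp
  unfold blk at hp
  rw [mem_filter, mem_Ioc] at hp
  have : 0 < p := by omega
  exact_mod_cast this.ne'

lemma blk_est {r : ℕ} {b : ℝ} (hc : Ch r b) : ∃ Y₀ : ℕ, ∀ Y : ℕ, Y₀ ≤ Y →
    Real.sqrt Y / (16 * Real.log Y) ≤ ∑ p ∈ blk r Y, 1 / Real.sqrt (p : ℝ) ∧
    (Y : ℝ) / 8 ≤ Real.log ((∏ p ∈ blk r Y, p : ℕ) : ℝ) ∧
    Real.log ((∏ p ∈ blk r Y, p : ℕ) : ℝ) ≤ Y := by
  classical
  have hr8 : r < 8 ∧ r.Coprime 8 := by
    rcases hc with ⟨rfl, -⟩ | ⟨rfl, -⟩ <;> exact ⟨by norm_num, by decide⟩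
  obtain ⟨f, hf⟩ : ∃ f : ℕ → ℝ, ∀ N, f N =
      (((Icc 1 N).filter (fun n => n.Prime ∧ n ≡ r [MOD 8])).card : ℝ) := ⟨_, fun _ => rfl⟩
  have hlim := Pool.Agent.Lib.MP_629a14_nt.Rob.pi_ap 8 r (by norm_num) hr8.2
  have hφ : Nat.totient 8 = 4 := by decide
  rw [hφ] at hlim
  have hev := Metric.tendsto_nhds.1 hlim (1 / 32) (by norm_num)
  simp only [Real.dist_eq, ← hf] at hev
  obtain ⟨N₁, hN₁⟩ := Filter.eventually_atTop.1 hev
  have hev2 : ∀ᶠ x : ℕ in Filter.atTop, (16 : ℝ) ≤ Real.log x :=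
    (Real.tendsto_log_atTop.comp tendsto_natCast_atTop_atTop).eventually_ge_atTop _
  obtain ⟨N₂, hN₂⟩ := Filter.eventually_atTop.1 hev2
  refine ⟨N₁ + N₂ + 1, fun Y hY => ?_⟩
  have hY1 : (1 : ℝ) ≤ Y := by
    have : 1 ≤ Y := by omega
    exact_mod_cast this
  have hY0 : (0 : ℝ) < Y := by linarith
  have hL := hN₂ Y (by omega)
  have h1 := hN₁ Y (by omega)
  have h2 := hN₁ (2 * Y) (by omega)
  have hlog2 : Real.log 2 < 1 := by
    have := Real.log_two_lt_d9
    linarith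
  have hlog20 : 0 < Real.log 2 := Real.log_pos (by norm_num)
  have hL2 : Real.log ((2 * Y : ℕ) : ℝ) = Real.log 2 + Real.log Y := by
    push_cast
    exact Real.log_mul (by norm_num) hY0.ne'
  push_cast at h1 h2 hL2
  rw [hL2] at h2
  obtain ⟨L, hLd⟩ : ∃ L, L = Real.log (Y : ℝ) := ⟨_, rfl⟩
  rw [← hLd] at hL h1 h2 hL2
  have hL0 : 0 < L := by linarith
  -- the numbers of primes
  have h1' : f Y * L ≤ 9 / 32 * Y := by
    have h3 := (abs_lt.1 h1).2
    have h4 : f Y * L / Y < 9 / 32 := by linarith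
    rw [div_lt_iff₀ hY0] at h4
    exact h4.le
  have h2' : 7 / 32 * (2 * Y) ≤ f (2 * Y) * (Real.log 2 + L) := by
    have h3 := (abs_lt.1 h2).1
    have h4 : 7 / 32 < f (2 * Y) * (Real.log 2 + L) / (2 * Y) := by linarith
    rw [lt_div_iff₀ (by positivity)] at h4
    exact h4.le
  have h2'' : f (2 * Y) * (Real.log 2 + L) ≤ 9 / 32 * (2 * Y) := by
    have h3 := (abs_lt.1 h2).2
    have h4 : f (2 * Y) * (Real.log 2 + L) / (2 * Y) < 9 / 32 := by linarith
    rw [div_lt_iff₀ (by positivity)] at h4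
    exact h4.le
  have hf0 : ∀ N, 0 ≤ f N := fun N => by rw [hf]; positivity
  have hcard : ((blk r Y).card : ℝ) = f (2 * Y) - f Y := by
    have h3 : (Icc 1 (2 * Y)).filter (fun n => n.Prime ∧ n ≡ r [MOD 8]) =
        (Icc 1 Y).filter (fun n => n.Prime ∧ n ≡ r [MOD 8]) ∪ blk r Y := by
      have hmod : ∀ p : ℕ, p ≡ r [MOD 8] ↔ p % 8 = r := by
        intro p
        unfold Nat.ModEq
        rw [Nat.mod_eq_of_lt hr8.1]
      ext p
      unfold blk
      simp only [mem_filter, mem_union, mem_Icc, mem_Ioc, hmod]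
      constructor
      · rintro ⟨⟨ha, hb⟩, hp⟩
        rcases Nat.lt_or_ge Y p with h | h
        · exact Or.inr ⟨⟨h, hb⟩, hp⟩
        · exact Or.inl ⟨⟨ha, h⟩, hp⟩
      · rintro (⟨⟨ha, hb⟩, hp⟩ | ⟨⟨ha, hb⟩, hp⟩)
        · exact ⟨⟨ha, by omega⟩, hp⟩
        · exact ⟨⟨by omega, hb⟩, hp⟩
    have h4 : Disjoint ((Icc 1 Y).filter (fun n => n.Prime ∧ n ≡ r [MOD 8])) (blk r Y) := by
      rw [Finset.disjoint_left]
      intro p hp hq
      unfold blk at hq
      rw [mem_filter, mem_Icc] at hp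
      rw [mem_filter, mem_Ioc] at hq
      omega
    rw [hf, hf, h3, Finset.card_union_of_disjoint h4]
    push_cast
    ring
  have hc1 : (Y : ℝ) / 8 ≤ ((blk r Y).card : ℝ) * L := by
    rw [hcard]
    have h3 : f (2 * Y) * (Real.log 2 + L) ≤ f (2 * Y) * (17 / 16 * L) :=
      mul_le_mul_of_nonneg_left (by linarith) (hf0 _)
    nlinarith
  have hc2 : ((blk r Y).card : ℝ) * (Real.log 2 + L) ≤ Y := by
    rw [hcard]
    have h3 : 0 ≤ f Y * (Real.log 2 + L) := mul_nonneg (hf0 _) (by linarith)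
    nlinarith
  rw [← hLd]
  refine ⟨?_, ?_, ?_⟩
  · have h3 : ((blk r Y).card : ℝ) * (1 / (2 * Real.sqrt Y)) ≤
        ∑ p ∈ blk r Y, 1 / Real.sqrt (p : ℝ) := by
      rw [← nsmul_eq_mul, ← Finset.sum_const]
      refine Finset.sum_le_sum fun p hp => ?_
      unfold blk at hp
      rw [mem_filter, mem_Ioc] at hp
      have hp0 : (0 : ℝ) < p := by
        have : 0 < p := by omega
        exact_mod_cast this
      have hp2 : (p : ℝ) ≤ 4 * Y := by
        have : p ≤ 4 * Y := by omega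
        exact_mod_cast this
      have h4 : Real.sqrt p ≤ 2 * Real.sqrt Y := by
        have h5 : Real.sqrt (4 * Y) = 2 * Real.sqrt Y := by
          rw [Real.sqrt_mul (by norm_num), show (4 : ℝ) = 2 ^ 2 by norm_num,
            Real.sqrt_sq (by norm_num)]
        rw [← h5]
        exact Real.sqrt_le_sqrt hp2
      exact one_div_le_one_div_of_le (Real.sqrt_pos.2 hp0) h4
    refine le_trans ?_ h3
    have hs : 0 < Real.sqrt Y := Real.sqrt_pos.2 hY0
    have hss : Real.sqrt Y * Real.sqrt Y = Y := Real.mul_self_sqrt hY0.le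
    rw [mul_one_div, div_le_div_iff₀ (by positivity) (by positivity)]
    nlinarith
  · rw [blk_log r Y (by omega)]
    refine hc1.trans ?_
    rw [← nsmul_eq_mul, ← Finset.sum_const]
    refine Finset.sum_le_sum fun p hp => ?_
    unfold blk at hp
    rw [mem_filter, mem_Ioc] at hp
    rw [hLd]
    apply Real.log_le_log hY0
    exact_mod_cast hp.1.1.le
  · rw [blk_log r Y (by omega)]
    refine le_trans ?_ hc2
    rw [← nsmul_eq_mul, ← Finset.sum_const]
    refine Finset.sum_le_sum fun p hp => ?_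
    unfold blk at hp
    rw [mem_filter, mem_Ioc] at hp
    rw [← hL2]
    apply Real.log_le_log
    · have : 0 < p := by omega
      exact_mod_cast this
    · exact_mod_cast hp.1.2

end PsiOm
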