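import Pool.Agent.Lib.MP_3519bc_nt.Ins.Avg

/-!
# The sum of the diagonal weights over the divisors of a product of primes in a class mod 8
-/

set_option autoImplicit false

namespace PsiOm

open Finset

/-- The two choices of the residue class and the sign. -/
def Ch (r : ℕ) (b : ℝ) : Prop := (r = 3 ∧ b = 1) ∨ (r = 7 ∧ b = -1)

lemma Ch.sq {r : ℕ} {b : ℝ} (h : Ch r b) : r * r % 8 = 1 ∧ r % 8 = r := by
  rcases h with ⟨rfl, -⟩ | ⟨rfl, -⟩ <;> exact ⟨rfl, rfl⟩

lemma dg_one (n : ℕ) (h : n % 8 = 1) : dg n = 0 := by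
  obtain ⟨k, hk⟩ : ∃ k, n = 8 * k + 1 := ⟨n / 8, by omega⟩
  unfold dg
  have : Real.pi * ((3 * (n : ℝ) - 1) / 4) = Real.pi / 2 + (3 * k : ℕ) * (2 * Real.pi) := by
    rw [hk]; push_cast; ring
  rw [this, Real.cos_add_nat_mul_two_pi, Real.cos_pi_div_two, mul_zero]

lemma dg_ch {r : ℕ} {b : ℝ} (hc : Ch r b) (n : ℕ) (h : n % 8 = r) :
    b * dg n = 2 / Real.sqrt (n : ℝ) := by
  obtain ⟨k, hk⟩ : ∃ k, n = 8 * k + r := ⟨n / 8, by omega⟩
  rcases hc with ⟨rfl, rfl⟩ | ⟨rfl, rfl⟩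
  · unfold dg
    have : Real.pi * ((3 * (n : ℝ) - 1) / 4) = 0 + (3 * k + 1 : ℕ) * (2 * Real.pi) := by
      rw [hk]; push_cast; ring
    rw [this, Real.cos_add_nat_mul_two_pi, Real.cos_zero, mul_one, one_mul]
  · unfold dg
    have : Real.pi * ((3 * (n : ℝ) - 1) / 4) = Real.pi + (3 * k + 2 : ℕ) * (2 * Real.pi) := by
      rw [hk]; push_cast; ring
    rw [this, Real.cos_add_nat_mul_two_pi, Real.cos_pi]
    ring

lemma dvd_prod_mod {r : ℕ} {b : ℝ} (hc : Ch r b) (P : Finset ℕ)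
    (hP : ∀ p ∈ P, p.Prime ∧ p % 8 = r) :
    ∀ n : ℕ, n ∣ ∏ p ∈ P, p → n % 8 = 1 ∨ n % 8 = r := by
  induction P using Finset.induction_on with
  | empty =>
    intro n hn
    rw [Finset.prod_empty, Nat.dvd_one] at hn
    left; rw [hn]
  | insert p P hp ih =>
    intro n hn
    have ih' := ih fun q hq => hP q (Finset.mem_insert_of_mem hq)
    obtain ⟨hpp, hp8⟩ := hP p (Finset.mem_insert_self _ _)
    rw [Finset.prod_insert hp] at hn
    by_cases hd : p ∣ n
    · obtain ⟨m, rfl⟩ := hd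
      have hm : m ∣ ∏ p ∈ P, p := Nat.dvd_of_mul_dvd_mul_left hpp.pos hn
      rcases ih' m hm with h | h
      · right; rw [Nat.mul_mod, hp8, h, mul_one, hc.sq.2]
      · left; rw [Nat.mul_mod, hp8, h, hc.sq.1]
    · have hc' : Nat.Coprime n p := (Nat.Coprime.symm ((Nat.Prime.coprime_iff_not_dvd hpp).mpr hd))
      exact ih' n (hc'.dvd_of_dvd_mul_left hn)

lemma prod_mod {r : ℕ} {b : ℝ} (hc : Ch r b) (S : Finset ℕ) (hS : ∀ p ∈ S, p % 8 = r) :
    (Even S.card → (∏ p ∈ S, p) % 8 = 1) ∧ (Odd S.card → (∏ p ∈ S, p) % 8 = r) := by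
  induction S using Finset.induction_on with
  | empty => simp
  | insert p S hp ih =>
    have ih' := ih fun q hq => hS q (Finset.mem_insert_of_mem hq)
    have hp8 := hS p (Finset.mem_insert_self _ _)
    rw [Finset.card_insert_of_notMem hp, Finset.prod_insert hp]
    constructor
    · intro h
      have : Odd S.card := by
        rw [Nat.even_add_one, Nat.not_even_iff_odd] at h; exact h
      rw [Nat.mul_mod, hp8, ih'.2 this, hc.sq.1]
    · intro h
      have : Even S.card := by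
        rw [Nat.odd_add_one, Nat.not_odd_iff_even] at h; exact h
      rw [Nat.mul_mod, hp8, ih'.1 this, mul_one, hc.sq.2]

lemma dg_prod {r : ℕ} {b : ℝ} (hc : Ch r b) (S : Finset ℕ) (hS : ∀ p ∈ S, p % 8 = r) :
    b * dg (∏ p ∈ S, p) =
      ∏ p ∈ S, (1 / Real.sqrt (p : ℝ)) - ∏ p ∈ S, (-(1 / Real.sqrt (p : ℝ))) := by
  have h1 : ∏ p ∈ S, (1 / Real.sqrt (p : ℝ)) = 1 / Real.sqrt ((∏ p ∈ S, p : ℕ) : ℝ) := by
    induction S using Finset.induction_on with
    | empty => simp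
    | insert p S hp ih =>
      rw [Finset.prod_insert hp, Finset.prod_insert hp,
        ih fun q hq => hS q (Finset.mem_insert_of_mem hq)]
      push_cast
      rw [Real.sqrt_mul (by positivity)]
      field_simp
  have h2 : ∏ p ∈ S, (-(1 / Real.sqrt (p : ℝ))) =
      (-1) ^ S.card * ∏ p ∈ S, (1 / Real.sqrt (p : ℝ)) := by
    rw [Finset.prod_neg]
  rw [h2, h1]
  rcases Nat.even_or_odd S.card with h | h
  · rw [dg_one _ ((prod_mod hc S hS).1 h), h.neg_one_pow]; ring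
  · rw [dg_ch hc _ ((prod_mod hc S hS).2 h), h.neg_one_pow]; ring

lemma sum_dg_lower {r : ℕ} {b : ℝ} (hc : Ch r b) (P : Finset ℕ)
    (hP : ∀ p ∈ P, p.Prime ∧ p % 8 = r) :
    ∏ p ∈ P, (1 + 1 / Real.sqrt (p : ℝ)) - 1 ≤ b * ∑ n ∈ (∏ p ∈ P, p).divisors, dg n := by
  classical
  have hM0 : (∏ p ∈ P, p) ≠ 0 := Finset.prod_ne_zero_iff.mpr fun p hp => (hP p hp).1.ne_zero
  have hinj : Set.InjOn (fun S : Finset ℕ => ∏ p ∈ S, p) (P.powerset : Set (Finset ℕ)) := by
    intro S hS T hT hST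
    rw [Finset.mem_coe, Finset.mem_powerset] at hS hT
    have h1 := Nat.primeFactors_prod (s := S) fun p hp => (hP p (hS hp)).1
    have h2 := Nat.primeFactors_prod (s := T) fun p hp => (hP p (hT hp)).1
    rw [← h1, ← h2]
    exact congrArg _ hST
  rw [Finset.mul_sum]
  have h1 : ∑ n ∈ P.powerset.image (fun S : Finset ℕ => ∏ p ∈ S, p), b * dg n ≤
      ∑ n ∈ (∏ p ∈ P, p).divisors, b * dg n := by
    apply Finset.sum_le_sum_of_subset_of_nonneg
    · intro n hn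
      rw [Finset.mem_image] at hn
      obtain ⟨S, hS, rfl⟩ := hn
      rw [Nat.mem_divisors]
      exact ⟨Finset.prod_dvd_prod_of_subset _ _ _ (Finset.mem_powerset.mp hS), hM0⟩
    · intro n hn _
      rcases dvd_prod_mod hc P hP n (Nat.dvd_of_mem_divisors hn) with h | h
      · rw [dg_one n h, mul_zero]
      · rw [dg_ch hc n h]; positivity
  refine le_trans ?_ h1
  rw [Finset.sum_image hinj]
  have h2 : ∑ S ∈ P.powerset, b * dg (∏ p ∈ S, p) =
      ∏ p ∈ P, (1 + 1 / Real.sqrt (p : ℝ)) - ∏ p ∈ P, (1 + -(1 / Real.sqrt (p : ℝ))) := by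
    rw [Finset.prod_one_add, Finset.prod_one_add, ← Finset.sum_sub_distrib]
    refine Finset.sum_congr rfl fun S hS => ?_
    exact dg_prod hc S fun p hp => (hP p (Finset.mem_powerset.mp hS hp)).2
  rw [h2]
  have h3 : ∏ p ∈ P, (1 + -(1 / Real.sqrt (p : ℝ))) ≤ 1 := by
    apply Finset.prod_le_one
    · intro p hp
      have : 1 ≤ Real.sqrt (p : ℝ) := by
        rw [Real.one_le_sqrt]; exact_mod_cast (hP p hp).1.one_lt.le
      have : 1 / Real.sqrt (p : ℝ) ≤ 1 := by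
        rw [div_le_one (by linarith)]; exact this
      linarith
    · intro p hp
      have : 0 ≤ 1 / Real.sqrt (p : ℝ) := by positivity
      linarith
  linarith

lemma exp_half_le (u : ℝ) (h0 : 0 ≤ u) (h1 : u ≤ 1) : Real.exp (u / 2) ≤ 1 + u := by
  have h2 : 1 - u / 2 ≤ Real.exp (-(u / 2)) := by
    have := Real.add_one_le_exp (-(u / 2)); linarith
  rw [Real.exp_neg] at h2
  have h3 : 0 < Real.exp (u / 2) := Real.exp_pos _
  have h4 : (1 - u / 2) * Real.exp (u / 2) ≤ 1 := by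
    calc (1 - u / 2) * Real.exp (u / 2) ≤ (Real.exp (u / 2))⁻¹ * Real.exp (u / 2) :=
          mul_le_mul_of_nonneg_right h2 h3.le
      _ = 1 := inv_mul_cancel₀ h3.ne'
  have h5 : 1 ≤ (1 - u / 2) * (1 + u) := by nlinarith
  have h6 : 0 < 1 - u / 2 := by linarith
  exact le_of_mul_le_mul_left (h4.trans h5) h6

lemma sum_dg_exp {r : ℕ} {b : ℝ} (hc : Ch r b) (P : Finset ℕ)
    (hP : ∀ p ∈ P, p.Prime ∧ p % 8 = r) :
    Real.exp ((∑ p ∈ P, 1 / Real.sqrt (p : ℝ)) / 2) - 1 ≤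
      b * ∑ n ∈ (∏ p ∈ P, p).divisors, dg n := by
  refine le_trans ?_ (sum_dg_lower hc P hP)
  rw [Finset.sum_div, Real.exp_sum]
  have : ∏ p ∈ P, Real.exp (1 / Real.sqrt (p : ℝ) / 2) ≤ ∏ p ∈ P, (1 + 1 / Real.sqrt (p : ℝ)) := by
    apply Finset.prod_le_prod
    · intro p _; exact (Real.exp_pos _).le
    · intro p hp
      apply exp_half_le
      · positivity
      · have : 1 ≤ Real.sqrt (p : ℝ) := by
          rw [Real.one_le_sqrt]; exact_mod_cast (hP p hp).1.one_lt.le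
        rw [div_le_one (by linarith)]; exact this
  linarith

end PsiOm
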