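import Mathlib

/-!
# The cosine series: existence of the limit, exponential sums over an interval of `t`
-/

set_option autoImplicit false

namespace PsiOm

open Finset

noncomputable def psiT (x : ℝ) (n : ℕ) : ℝ :=
  2 / Real.sqrt (n : ℝ) * Real.cos (Real.pi * ((3 * (n : ℝ) - 1) / 4 - x / (n : ℝ)))

noncomputable def phs (n : ℕ) : ℂ :=
  Complex.exp (Complex.I * ((Real.pi * ((3 * (n : ℝ) - 1) / 4) : ℝ) : ℂ))

noncomputable def osc (x : ℝ) (n : ℕ) : ℂ :=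
  ((2 / Real.sqrt (n : ℝ) : ℝ) : ℂ) * Complex.exp (Complex.I * ((-(Real.pi * (x / (n : ℝ))) : ℝ) : ℂ))

lemma re_exp_I_mul (y : ℝ) : (Complex.exp (Complex.I * (y : ℂ))).re = Real.cos y := by
  rw [mul_comm, Complex.exp_ofReal_mul_I_re]

lemma norm_exp_I_mul (y : ℝ) : ‖Complex.exp (Complex.I * (y : ℂ))‖ = 1 := by
  rw [mul_comm, Complex.norm_exp_ofReal_mul_I]

lemma psiT_eq (x : ℝ) (n : ℕ) : psiT x n = (osc x n * phs n).re := by
  unfold psiT osc phs
  rw [mul_assoc, ← Complex.exp_add, ← mul_add, ← Complex.ofReal_add, Complex.re_ofReal_mul,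
    re_exp_I_mul]
  congr 2
  ring

noncomputable def rr : ℂ := Complex.exp (Complex.I * ((Real.pi * (3 / 4) : ℝ) : ℂ))

lemma phs_succ (n : ℕ) : phs (n + 1) = rr * phs n := by
  unfold phs rr
  rw [← Complex.exp_add, ← mul_add, ← Complex.ofReal_add]
  congr 3
  push_cast
  ring

lemma norm_phs (n : ℕ) : ‖phs n‖ = 1 := norm_exp_I_mul _

lemma one_le_norm_rr_sub : 1 ≤ ‖rr - 1‖ := by
  have h1 : rr.re ≤ 0 := by
    unfold rr
    rw [re_exp_I_mul]
    apply Real.cos_nonpos_of_pi_div_two_le_of_le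
    · linarith [Real.pi_pos]
    · linarith [Real.pi_pos]
  have h2 : |(rr - 1).re| ≤ ‖rr - 1‖ := Complex.abs_re_le_norm _
  rw [Complex.sub_re, Complex.one_re] at h2
  rw [abs_of_nonpos (by linarith)] at h2
  linarith

lemma abel_bound (g E : ℕ → ℂ) (r : ℂ) (hr : 1 ≤ ‖r - 1‖) (hE : ∀ n, E (n + 1) = r * E n)
    (hE1 : ∀ n, ‖E n‖ = 1) (a b : ℕ) (hab : a ≤ b) :
    ‖∑ n ∈ Ico a b, g n * E n‖ ≤ ‖g a‖ + ‖g b‖ + ∑ n ∈ Ico a b, ‖g (n + 1) - g n‖ := by
  have key : (r - 1) * ∑ n ∈ Ico a b, g n * E n =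
      g b * E b - g a * E a - ∑ n ∈ Ico a b, (g (n + 1) - g n) * E (n + 1) := by
    induction b, hab using Nat.le_induction with
    | base => simp
    | succ b hab ih =>
      rw [Finset.sum_Ico_succ_top hab, Finset.sum_Ico_succ_top hab, mul_add, ih, hE b]
      ring
  have h1 : ‖∑ n ∈ Ico a b, g n * E n‖ ≤ ‖(r - 1) * ∑ n ∈ Ico a b, g n * E n‖ := by
    rw [norm_mul]
    exact le_mul_of_one_le_left (norm_nonneg _) hr
  rw [key] at h1
  refine h1.trans ?_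
  refine (norm_sub_le _ _).trans ?_
  refine add_le_add ?_ ?_
  · refine (norm_sub_le _ _).trans ?_
    rw [norm_mul, norm_mul, hE1, hE1, mul_one, mul_one, add_comm]
  · refine (norm_sum_le _ _).trans ?_
    refine Finset.sum_le_sum fun n _ => ?_
    rw [norm_mul, hE1, mul_one]

lemma norm_osc (x : ℝ) (n : ℕ) : ‖osc x n‖ = 2 / Real.sqrt (n : ℝ) := by
  unfold osc
  rw [norm_mul, norm_exp_I_mul, mul_one, Complex.norm_real, Real.norm_eq_abs, abs_of_nonneg]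
  positivity

lemma norm_exp_sub (u v : ℝ) :
    ‖Complex.exp (Complex.I * (u : ℂ)) - Complex.exp (Complex.I * (v : ℂ))‖ ≤ |u - v| := by
  have h : Complex.exp (Complex.I * (u : ℂ)) - Complex.exp (Complex.I * (v : ℂ)) =
      Complex.exp (Complex.I * (v : ℂ)) * (Complex.exp (Complex.I * ((u - v : ℝ) : ℂ)) - 1) := by
    rw [mul_sub, ← Complex.exp_add, ← mul_add, ← Complex.ofReal_add]
    congr 4
    · ring
    · ring
  rw [h, norm_mul, norm_exp_I_mul, one_mul]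
  have := Real.norm_exp_I_mul_ofReal_sub_one_le (x := u - v)
  simpa using this

lemma osc_diff (x : ℝ) (n : ℕ) (hn : 1 ≤ n) :
    ‖osc x (n + 1) - osc x n‖ ≤
      (2 / Real.sqrt (n : ℝ) - 2 / Real.sqrt ((n + 1 : ℕ) : ℝ)) +
      2 / Real.sqrt (n : ℝ) * (Real.pi * |x|) * (1 / (n : ℝ) - 1 / ((n + 1 : ℕ) : ℝ)) := by
  have hn0 : (0 : ℝ) < n := by exact_mod_cast hn
  have hn1 : (0 : ℝ) < ((n + 1 : ℕ) : ℝ) := by positivity
  have hle : (n : ℝ) ≤ ((n + 1 : ℕ) : ℝ) := by push_cast; linarith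
  have h : osc x (n + 1) - osc x n =
      ((2 / Real.sqrt ((n + 1 : ℕ) : ℝ) - 2 / Real.sqrt (n : ℝ) : ℝ) : ℂ) *
        Complex.exp (Complex.I * ((-(Real.pi * (x / ((n + 1 : ℕ) : ℝ))) : ℝ) : ℂ)) +
      ((2 / Real.sqrt (n : ℝ) : ℝ) : ℂ) *
        (Complex.exp (Complex.I * ((-(Real.pi * (x / ((n + 1 : ℕ) : ℝ))) : ℝ) : ℂ)) -
         Complex.exp (Complex.I * ((-(Real.pi * (x / (n : ℝ))) : ℝ) : ℂ))) := by
    unfold osc
    push_cast
    ring
  rw [h]
  refine (norm_add_le _ _).trans (add_le_add ?_ ?_)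
  · rw [norm_mul, norm_exp_I_mul, mul_one, Complex.norm_real, Real.norm_eq_abs, abs_sub_comm,
      abs_of_nonneg]
    have : Real.sqrt (n : ℝ) ≤ Real.sqrt ((n + 1 : ℕ) : ℝ) := Real.sqrt_le_sqrt hle
    have h3 : 0 < Real.sqrt (n : ℝ) := Real.sqrt_pos.mpr hn0
    have := div_le_div_of_nonneg_left (by norm_num : (0:ℝ) ≤ 2) h3 this
    linarith
  · rw [norm_mul, Complex.norm_real, Real.norm_eq_abs, abs_of_nonneg (by positivity), mul_assoc]
    refine mul_le_mul_of_nonneg_left ?_ (by positivity)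
    refine (norm_exp_sub _ _).trans ?_
    have h4 : -(Real.pi * (x / ((n + 1 : ℕ) : ℝ))) - -(Real.pi * (x / (n : ℝ))) =
        Real.pi * x * (1 / (n : ℝ) - 1 / ((n + 1 : ℕ) : ℝ)) := by ring
    rw [h4, abs_mul, abs_mul, abs_of_pos Real.pi_pos, abs_of_nonneg (a := 1 / (n : ℝ) - 1 / ((n + 1 : ℕ) : ℝ))]
    have := one_div_le_one_div_of_le hn0 hle
    linarith

lemma tail_bound (x : ℝ) (a b : ℕ) (ha : 1 ≤ a) (hab : a ≤ b) :
    |∑ n ∈ Ico a b, psiT x n| ≤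
      4 / Real.sqrt (a : ℝ) + 2 * Real.pi * |x| / (a * Real.sqrt (a : ℝ)) := by
  have ha0 : (0 : ℝ) < a := by exact_mod_cast ha
  have hsa : 0 < Real.sqrt (a : ℝ) := Real.sqrt_pos.mpr ha0
  have h1 : ∑ n ∈ Ico a b, psiT x n = (∑ n ∈ Ico a b, osc x n * phs n).re := by
    rw [Complex.re_sum]
    exact Finset.sum_congr rfl fun n _ => psiT_eq x n
  rw [h1]
  refine (Complex.abs_re_le_norm _).trans ?_
  refine (abel_bound (osc x) phs rr one_le_norm_rr_sub phs_succ norm_phs a b hab).trans ?_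
  rw [norm_osc, norm_osc]
  have h2 : ∑ n ∈ Ico a b, ‖osc x (n + 1) - osc x n‖ ≤
      (2 / Real.sqrt (a : ℝ) - 2 / Real.sqrt (b : ℝ)) +
      2 / Real.sqrt (a : ℝ) * (Real.pi * |x|) * (1 / (a : ℝ) - 1 / (b : ℝ)) := by
    clear h1
    induction b, hab using Nat.le_induction with
    | base => simp
    | succ b hab ih =>
      rw [Finset.sum_Ico_succ_top hab]
      have hb : 1 ≤ b := ha.trans hab
      have h3 := osc_diff x b hb
      have h4 : 2 / Real.sqrt (b : ℝ) * (Real.pi * |x|) * (1 / (b : ℝ) - 1 / ((b + 1 : ℕ) : ℝ)) ≤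
          2 / Real.sqrt (a : ℝ) * (Real.pi * |x|) * (1 / (b : ℝ) - 1 / ((b + 1 : ℕ) : ℝ)) := by
        have hb0 : (0 : ℝ) < b := by exact_mod_cast hb
        have h5 : 1 / ((b + 1 : ℕ) : ℝ) ≤ 1 / (b : ℝ) :=
          one_div_le_one_div_of_le hb0 (by push_cast; linarith)
        have h6 : 2 / Real.sqrt (b : ℝ) ≤ 2 / Real.sqrt (a : ℝ) :=
          div_le_div_of_nonneg_left (by norm_num) hsa (Real.sqrt_le_sqrt (by exact_mod_cast hab))
        refine mul_le_mul_of_nonneg_right ?_ (by linarith)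
        refine mul_le_mul_of_nonneg_right h6 ?_
        have := Real.pi_pos
        positivity
      linarith
  have h3 : 2 / Real.sqrt (a : ℝ) * (Real.pi * |x|) * (1 / (a : ℝ) - 1 / (b : ℝ)) ≤
      2 * Real.pi * |x| / (a * Real.sqrt (a : ℝ)) := by
    have h5 : 0 ≤ 2 / Real.sqrt (a : ℝ) * (Real.pi * |x|) * (1 / (b : ℝ)) := by
      have := Real.pi_pos
      positivity
    have h6 : 2 / Real.sqrt (a : ℝ) * (Real.pi * |x|) * (1 / (a : ℝ)) =
      2 * Real.pi * |x| / (a * Real.sqrt (a : ℝ)) := by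
      field_simp
    rw [mul_sub, h6]
    linarith
  have h4 : 4 / Real.sqrt (a : ℝ) = 2 / Real.sqrt (a : ℝ) + 2 / Real.sqrt (a : ℝ) := by ring
  rw [h4]
  linarith

lemma exists_limit (x : ℝ) :
    ∃ S : ℝ, Filter.Tendsto (fun N : ℕ => ∑ n ∈ Icc 1 N, psiT x n) Filter.atTop (nhds S) ∧
      ∀ a : ℕ, 1 ≤ a → |S - ∑ n ∈ Ico 1 a, psiT x n| ≤
        4 / Real.sqrt (a : ℝ) + 2 * Real.pi * |x| / (a * Real.sqrt (a : ℝ)) := by
  have hsum : ∀ N : ℕ, ∑ n ∈ Icc 1 N, psiT x n = ∑ n ∈ Ico 1 (N + 1), psiT x n := by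
    intro N
    congr 1
  have hdiff : ∀ a b : ℕ, 1 ≤ a → a ≤ b →
      |∑ n ∈ Ico 1 b, psiT x n - ∑ n ∈ Ico 1 a, psiT x n| ≤
        4 / Real.sqrt (a : ℝ) + 2 * Real.pi * |x| / (a * Real.sqrt (a : ℝ)) := by
    intro a b ha hab
    rw [← Finset.sum_Ico_consecutive _ ha hab, add_sub_cancel_left]
    exact tail_bound x a b ha hab
  have hB : Filter.Tendsto (fun a : ℕ => 4 / Real.sqrt (a : ℝ) +
      2 * Real.pi * |x| / (a * Real.sqrt (a : ℝ))) Filter.atTop (nhds 0) := by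
    have h1 : Filter.Tendsto (fun a : ℕ => Real.sqrt (a : ℝ)) Filter.atTop Filter.atTop :=
      Real.tendsto_sqrt_atTop.comp tendsto_natCast_atTop_atTop
    have h2 : Filter.Tendsto (fun a : ℕ => (a : ℝ) * Real.sqrt (a : ℝ)) Filter.atTop Filter.atTop :=
      tendsto_natCast_atTop_atTop.atTop_mul_atTop₀ h1
    have h3 := (h1.const_div_atTop 4).add (h2.const_div_atTop (2 * Real.pi * |x|))
    simpa using h3
  have hcau : CauchySeq (fun N : ℕ => ∑ n ∈ Icc 1 N, psiT x n) := by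
    apply cauchySeq_of_le_tendsto_0' (fun N : ℕ => 4 / Real.sqrt ((N + 1 : ℕ) : ℝ) +
      2 * Real.pi * |x| / (((N + 1 : ℕ) : ℝ) * Real.sqrt ((N + 1 : ℕ) : ℝ)))
    · intro n m hnm
      rw [hsum, hsum, Real.dist_eq, abs_sub_comm]
      exact hdiff (n + 1) (m + 1) (by omega) (by omega)
    · exact hB.comp (Filter.tendsto_add_atTop_nat 1)
  obtain ⟨S, hS⟩ := cauchySeq_tendsto_of_complete hcau
  refine ⟨S, hS, fun a ha => ?_⟩
  have h1 : Filter.Tendsto (fun N : ℕ => |∑ n ∈ Icc 1 N, psiT x n - ∑ n ∈ Ico 1 a, psiT x n|)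
      Filter.atTop (nhds |S - ∑ n ∈ Ico 1 a, psiT x n|) :=
    (hS.sub_const _).abs
  refine le_of_tendsto h1 ?_
  filter_upwards [Filter.eventually_ge_atTop a] with N hN
  rw [hsum]
  exact hdiff a (N + 1) ha (by omega)

lemma sin_lower (M n : ℕ) (hn : 1 ≤ n) (hd : ¬ n ∣ M) :
    2 / (n : ℝ) ≤ |Real.sin (Real.pi * (M : ℝ) / n)| := by
  have hn0 : (0 : ℝ) < n := by exact_mod_cast hn
  set q := M / n
  set r := M % n
  have hr : r < n := Nat.mod_lt _ hn
  have hr0 : 0 < r := Nat.pos_of_ne_zero fun h => hd (Nat.dvd_of_mod_eq_zero h)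
  have hM : (M : ℝ) = n * q + r := by
    have := Nat.div_add_mod M n
    exact_mod_cast this.symm
  have h1 : Real.pi * (M : ℝ) / n = Real.pi * (r : ℝ) / n + q * Real.pi := by
    rw [hM]; field_simp; ring
  rw [h1, Real.sin_add_nat_mul_pi, abs_mul, abs_pow, abs_neg, abs_one, one_pow, one_mul]
  have hr1 : (1 : ℝ) ≤ r := by exact_mod_cast hr0
  have hrn : (r : ℝ) + 1 ≤ n := by exact_mod_cast hr
  have hpi := Real.pi_pos
  have h2 : 2 / (n : ℝ) ≤ Real.sin (Real.pi * (r : ℝ) / n) := by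
    by_cases hc : (2 * r : ℝ) ≤ n
    · have h3 := Real.mul_le_sin (x := Real.pi * (r : ℝ) / n) (by positivity) (by
        rw [div_le_div_iff₀ hn0 (by norm_num)]
        nlinarith)
      refine le_trans ?_ h3
      have : 2 / Real.pi * (Real.pi * (r : ℝ) / n) = 2 * r / n := by field_simp
      rw [this]
      gcongr
      linarith
    · push Not at hc
      have h4 : Real.sin (Real.pi * (r : ℝ) / n) = Real.sin (Real.pi * ((n : ℝ) - r) / n) := by
        rw [← Real.sin_pi_sub]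
        congr 1
        field_simp
      rw [h4]
      have h3 := Real.mul_le_sin (x := Real.pi * ((n : ℝ) - r) / n) (by
          have : (0 : ℝ) ≤ n - r := by linarith
          positivity) (by
        rw [div_le_div_iff₀ hn0 (by norm_num)]
        nlinarith)
      refine le_trans ?_ h3
      have : 2 / Real.pi * (Real.pi * ((n : ℝ) - r) / n) = 2 * (n - r) / n := by field_simp
      rw [this]
      gcongr
      linarith
  exact h2.trans (le_abs_self _)

lemma sin_lower' (M n : ℕ) (hn : 1 ≤ n) (hd : 2 * M ≤ n) :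
    2 * (M : ℝ) / (n : ℝ) ≤ |Real.sin (Real.pi * (M : ℝ) / n)| := by
  have hn0 : (0 : ℝ) < n := by exact_mod_cast hn
  have hd' : 2 * (M : ℝ) ≤ n := by exact_mod_cast hd
  have hpi := Real.pi_pos
  have h3 := Real.mul_le_sin (x := Real.pi * (M : ℝ) / n) (by positivity) (by
        rw [div_le_div_iff₀ hn0 (by norm_num)]
        nlinarith)
  refine le_trans ?_ (le_abs_self _)
  refine le_trans (le_of_eq ?_) h3
  field_simp

/-- A geometric sum of cosines. -/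
lemma cos_sum (θ φ : ℝ) (A B : ℕ) (hAB : A ≤ B) :
    |Real.sin φ| * |∑ t ∈ Ico A B, Real.cos (θ - 2 * φ * t)| ≤ 1 := by
  set z : ℂ := Complex.exp (Complex.I * ((-(2 * φ) : ℝ) : ℂ)) with hz
  have h1 : ∑ t ∈ Ico A B, Real.cos (θ - 2 * φ * t) =
      (Complex.exp (Complex.I * (θ : ℂ)) * ∑ t ∈ Ico A B, z ^ t).re := by
    rw [Finset.mul_sum, Complex.re_sum]
    refine Finset.sum_congr rfl fun t _ => ?_
    rw [hz, ← Complex.exp_nat_mul, ← Complex.exp_add]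
    have : Complex.I * (θ : ℂ) + (t : ℂ) * (Complex.I * ((-(2 * φ) : ℝ) : ℂ)) =
        Complex.I * ((θ - 2 * φ * t : ℝ) : ℂ) := by
      push_cast; ring
    rw [this, re_exp_I_mul]
  have hz1 : ‖z - 1‖ = 2 * |Real.sin φ| := by
    rw [hz, Complex.norm_exp_I_mul_ofReal_sub_one, Real.norm_eq_abs, abs_mul]
    rw [abs_of_pos (by norm_num : (0:ℝ) < 2)]
    congr 1
    rw [show -(2 * φ) / 2 = - φ by ring, Real.sin_neg, abs_neg]
  have hzn : ‖z‖ = 1 := norm_exp_I_mul _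
  have h2 : |∑ t ∈ Ico A B, Real.cos (θ - 2 * φ * t)| ≤ ‖∑ t ∈ Ico A B, z ^ t‖ := by
    rw [h1]
    refine (Complex.abs_re_le_norm _).trans ?_
    rw [norm_mul, norm_exp_I_mul, one_mul]
  have h3 : ‖z - 1‖ * ‖∑ t ∈ Ico A B, z ^ t‖ ≤ 2 := by
    rw [← norm_mul, mul_comm]
    rw [geom_sum_Ico_mul _ hAB]
    refine (norm_sub_le _ _).trans ?_
    rw [norm_pow, norm_pow, hzn, one_pow, one_pow]
    norm_num
  rw [hz1] at h3
  have h4 : |Real.sin φ| * |∑ t ∈ Ico A B, Real.cos (θ - 2 * φ * t)| ≤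
      |Real.sin φ| * ‖∑ t ∈ Ico A B, z ^ t‖ := mul_le_mul_of_nonneg_left h2 (abs_nonneg _)
  linarith

end PsiOm
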