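import Pool.Agent.Lib.MP_3519bc_nt.Ins.Blk

/-!
# Large values of the cosine series, of both signs and in both directions
-/

set_option autoImplicit false

namespace PsiOm

open Finset

lemma main {a b : ℝ} (ha : a = 1 ∨ a = -1) (hb : b = 1 ∨ b = -1) (X : ℝ) :
    ∃ x : ℝ, X ≤ x ∧ ∃ S : ℝ,
      Filter.Tendsto (fun N : ℕ => ∑ n ∈ Icc 1 N, psiT (a * x) n) Filter.atTop (nhds S) ∧
      Real.exp (1 / 256 * (Real.sqrt (Real.log x) / Real.log (Real.log x))) ≤ b * S := by
  obtain ⟨r, hc⟩ : ∃ r, Ch r b := by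
    rcases hb with rfl | rfl
    · exact ⟨3, Or.inl ⟨rfl, rfl⟩⟩
    · exact ⟨7, Or.inr ⟨rfl, rfl⟩⟩
  obtain ⟨Y₀, hY₀⟩ := blk_est hc
  have hev1 : ∀ᶠ Y : ℕ in Filter.atTop, Real.log Y / Real.sqrt Y < 1 / 128 := by
    have h1 := (isLittleO_log_rpow_atTop (r := 1 / 2) (by norm_num)).tendsto_div_nhds_zero
    have h2 := h1.comp tendsto_natCast_atTop_atTop
    have h3 := h2.eventually (gt_mem_nhds (show (0 : ℝ) < 1 / 128 by norm_num))
    refine h3.mono fun Y hY => ?_
    rw [Real.sqrt_eq_rpow]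
    exact hY
  have hev2 : ∀ᶠ Y : ℕ in Filter.atTop, X ≤ (Y : ℝ) :=
    tendsto_natCast_atTop_atTop.eventually_ge_atTop X
  have hev3 : ∀ᶠ x : ℕ in Filter.atTop, (16 : ℝ) ≤ Real.log x :=
    (Real.tendsto_log_atTop.comp tendsto_natCast_atTop_atTop).eventually_ge_atTop _
  obtain ⟨Y, hYe, hYX, hYL, hYY, hY64⟩ := (hev1.and (hev2.and (hev3.and
    ((Filter.eventually_ge_atTop Y₀).and (Filter.eventually_ge_atTop 64))))).exists
  obtain ⟨h1, h2, h3⟩ := hY₀ Y hYY
  have hY64' : (64 : ℝ) ≤ Y := by exact_mod_cast hY64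
  have hY0 : (0 : ℝ) < Y := by linarith
  obtain ⟨M, hM⟩ : ∃ M : ℕ, M = ∏ p ∈ blk r Y, p := ⟨_, rfl⟩
  rw [← hM] at h2 h3
  have hM0 : 0 < M := by
    rw [hM]
    refine Finset.prod_pos fun p hp => ?_
    unfold blk at hp
    rw [mem_filter, mem_Ioc] at hp
    omega
  have hM0' : (0 : ℝ) < M := by exact_mod_cast hM0
  have hsum0 : 0 < Real.sqrt Y / (16 * Real.log Y) := by
    have : 0 < Real.sqrt Y := Real.sqrt_pos.2 hY0
    positivity
  -- `M` is large
  obtain ⟨q, hq⟩ : (blk r Y).Nonempty := by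
    rw [Finset.nonempty_iff_ne_empty]
    intro he
    rw [he, Finset.sum_empty] at h1
    linarith
  have hqM : q ≤ M := by
    rw [hM]
    refine Nat.le_of_dvd (by rw [← hM]; exact hM0) (Finset.dvd_prod_of_mem _ hq)
  have hYM : Y ≤ M := by
    unfold blk at hq
    rw [mem_filter, mem_Ioc] at hq
    omega
  have hYM' : (Y : ℝ) ≤ M := by exact_mod_cast hYM
  obtain ⟨t, ht1, ht2, S, hS, hSb⟩ := exists_large ha hb M (by omega)
  have ht1' : (M : ℝ) ^ 2 ≤ t := by exact_mod_cast ht1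
  have ht2' : (t : ℝ) ≤ 2 * (M : ℝ) ^ 2 := by exact_mod_cast ht2.le
  have hM1 : (1 : ℝ) ≤ M := by linarith
  obtain ⟨x, hx⟩ : ∃ x : ℝ, x = 2 * M * t := ⟨_, rfl⟩
  have hxlo : (M : ℝ) ^ 3 ≤ x := by
    rw [hx]
    nlinarith [mul_le_mul_of_nonneg_left ht1' hM0'.le, pow_pos hM0' 3]
  have hxhi : x ≤ 4 * (M : ℝ) ^ 3 := by
    rw [hx]
    nlinarith [mul_le_mul_of_nonneg_left ht2' hM0'.le]
  have hMx : (M : ℝ) ≤ x := by
    refine le_trans ?_ hxlo
    nlinarith [pow_pos hM0' 2, mul_le_mul hM1 hM1 zero_le_one hM0'.le]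
  have hx0 : 0 < x := by linarith
  refine ⟨x, by linarith, S, ?_, ?_⟩
  · rw [hx]
    exact hS
  · -- the estimate
    have hlo : (3 / 8 : ℝ) * Y ≤ Real.log x := by
      have h4 := Real.log_le_log (by positivity) hxlo
      rw [Real.log_pow] at h4
      push_cast at h4
      linarith
    have hhi : Real.log x ≤ 4 * Y := by
      have h4 := Real.log_le_log hx0 hxhi
      rw [Real.log_mul (by norm_num) (by positivity), Real.log_pow] at h4
      have h5 : Real.log 4 ≤ 3 := by
        have := Real.log_le_sub_one_of_pos (show (0 : ℝ) < 4 by norm_num)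
        linarith
      push_cast at h4
      linarith
    obtain ⟨s, hs⟩ : ∃ s, s = Real.sqrt (Y : ℝ) := ⟨_, rfl⟩
    obtain ⟨L, hL⟩ : ∃ L, L = Real.log (Y : ℝ) := ⟨_, rfl⟩
    have hs0 : 0 < s := by rw [hs]; exact Real.sqrt_pos.2 hY0
    have hss : s * s = Y := by rw [hs]; exact Real.mul_self_sqrt hY0.le
    have hs8 : 8 ≤ s := by nlinarith
    rw [← hs, ← hL] at hYe h1
    rw [← hL] at hYL
    have hL0 : 0 < L := by linarith
    have hsqrt : Real.sqrt (Real.log x) ≤ 2 * s := by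
      rw [Real.sqrt_le_iff]
      exact ⟨by positivity, by nlinarith⟩
    have hll : L / 2 ≤ Real.log (Real.log x) := by
      have h4 : Real.log s = L / 2 := by
        rw [hs, hL, Real.log_sqrt hY0.le]
      rw [← h4]
      apply Real.log_le_log hs0
      nlinarith
    have hz : 1 / 256 * (Real.sqrt (Real.log x) / Real.log (Real.log x)) ≤ s / (64 * L) := by
      have h4 : Real.sqrt (Real.log x) / Real.log (Real.log x) ≤ 2 * s / (L / 2) :=
        div_le_div₀ (by positivity) hsqrt (by positivity) hll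
      have h5 : 1 / 256 * (2 * s / (L / 2)) = s / (64 * L) := by
        field_simp
        norm_num
      rw [← h5]
      exact mul_le_mul_of_nonneg_left h4 (by norm_num)
    have hz2 : 2 ≤ s / (64 * L) := by
      rw [div_lt_div_iff₀ hs0 (by norm_num)] at hYe
      rw [le_div_iff₀ (by positivity)]
      linarith
    have h6 := sum_dg_exp hc (blk r Y) (fun p hp => by
      unfold blk at hp
      exact (mem_filter.1 hp).2)
    rw [← hM] at h6
    have h7 : Real.exp (2 * (s / (64 * L))) ≤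
        Real.exp ((∑ p ∈ blk r Y, 1 / Real.sqrt (p : ℝ)) / 2) := by
      apply Real.exp_le_exp.2
      have h8 : 2 * (s / (64 * L)) = s / (16 * L) / 2 := by
        field_simp
        norm_num
      rw [h8]
      linarith
    have h8 : Real.exp (2 * (s / (64 * L))) = Real.exp (s / (64 * L)) * Real.exp (s / (64 * L)) := by
      rw [← Real.exp_add]
      congr 1
      ring
    have h9 : Real.exp (1 / 256 * (Real.sqrt (Real.log x) / Real.log (Real.log x))) ≤
        Real.exp (s / (64 * L)) := Real.exp_le_exp.2 hz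
    have h10 : 7 ≤ Real.exp (s / (64 * L)) := by
      have h11 : Real.exp 2 ≤ Real.exp (s / (64 * L)) := Real.exp_le_exp.2 hz2
      have h12 : Real.exp 2 = Real.exp 1 * Real.exp 1 := by
        rw [← Real.exp_add]
        norm_num
      have h13 := Real.exp_one_gt_d9
      nlinarith
    nlinarith

end PsiOm
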